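import Pool.Agent.Helper533.Deny.Final

/-! Infinity sets of `𝒜`-superharmonic functions: every `𝒜`-polar `G_δ` set is the infinity set of
an `𝒜`-superharmonic function in `ℝⁿ`. -/

set_option autoImplicit false

open MeasureTheory Filter Topology Set
open Pool.Agent.Helper533

namespace Pool.Agent.Results.MP_9b58c5_an.InfinitySets

/-- Let `1 < p < ∞`, let `w` be a nonnegative locally integrable function on `ℝⁿ` such that
`dμ = w dx` is `p`-admissible, and let `𝒜` satisfy the structure conditions with constants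
`0 < α ≤ β`. Then every `𝒜`-polar `G_δ` set `E ⊆ ℝⁿ` is the infinity set of an `𝒜`-superharmonic
function in `ℝⁿ`. -/
theorem result {n : ℕ} (hn : 1 ≤ n) {p α β : ℝ} (hp : 1 < p)
    {w : EuclideanSpace ℝ (Fin n) → ℝ} (hw : Deny.IsAdmissible p w)
    {𝒜 : EuclideanSpace ℝ (Fin n) → EuclideanSpace ℝ (Fin n) → EuclideanSpace ℝ (Fin n)}
    (hA : Polar.Stmt.IsOperator p α β w 𝒜) {E : Set (EuclideanSpace ℝ (Fin n))} (hE : IsGδ E)
    (hpol : Deny.IsPolar 𝒜 p w E) :
    ∃ u : EuclideanSpace ℝ (Fin n) → EReal,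
      Deny.IsSuperharmonic 𝒜 p w univ u ∧ E = {x | u x = ⊤} := by
  obtain ⟨u, h1, h2⟩ := Polar.deny_theorem hn hp hw hA hE hpol
  exact ⟨u, h1, h2.symm⟩

end Pool.Agent.Results.MP_9b58c5_an.InfinitySets
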